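import Pool.Agent.QSX.StmtsA

/-! Row RLG of the QSX plan: the reduction commutes with the exponential and the logarithm. -/

namespace Pool.Agent.QSX.H59

open Pool.Agent.QSX Matrix Finset

theorem rlg (hR : RdmStmt) : RlgStmt := by
  intro S m v hv
  obtain ⟨hmul, hadd, hconst, hsmul, -⟩ := hR S m
  have hone : (1 : Matrix (Fin m) (Fin m) ℝ).map (algebraMap ℝ S.FF) = 1 :=
    Matrix.map_one _ (map_zero _) (map_one _)
  have hpow : ∀ w : ℕ → Matrix (Fin m) (Fin m) ℝ, S.MdM w → ∀ k : ℕ,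
      S.MdM (fun s => w s ^ k) ∧ S.redM (fun s => w s ^ k) = S.redM w ^ k := by
    intro w hw k
    induction k with
    | zero =>
      simp only [pow_zero]
      refine ⟨(hconst 1).1, ?_⟩
      rw [(hconst 1).2, hone]
    | succ k ih =>
      simp only [pow_succ]
      obtain ⟨h1, h2⟩ := hmul (fun s => w s ^ k) w ih.1 hw
      exact ⟨h1, by rw [h2, ih.2]⟩
  have hsum : ∀ w : ℕ → Matrix (Fin m) (Fin m) ℝ, S.MdM w → ∀ (c : ℕ → ℝ) (n : ℕ),
      S.MdM (fun s => ∑ k ∈ range n, c k • w s ^ k) ∧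
        S.redM (fun s => ∑ k ∈ range n, c k • w s ^ k) = ∑ k ∈ range n, c k • S.redM w ^ k := by
    intro w hw c n
    induction n with
    | zero =>
      simp only [Finset.range_zero, Finset.sum_empty]
      refine ⟨(hconst 0).1, ?_⟩
      rw [(hconst 0).2]
      exact Matrix.map_zero _ (map_zero _)
    | succ n ih =>
      simp only [Finset.sum_range_succ]
      obtain ⟨h1, h2⟩ := hpow w hw n
      obtain ⟨h3, h4⟩ := hsmul (c n) (fun s => w s ^ n) h1
      obtain ⟨h5, h6⟩ := hadd (fun s => ∑ k ∈ range n, c k • w s ^ k)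
        (fun s => c n • w s ^ n) ih.1 h3
      exact ⟨h5, by rw [h6, ih.2, h4, h2]⟩
  have hsub : S.MdM (fun s => v s - 1) ∧ S.redM (fun s => v s - 1) = S.redM v - 1 := by
    obtain ⟨h1, h2⟩ := hadd v (fun _ => -1) hv (hconst (-1)).1
    simp only [← sub_eq_add_neg] at h1 h2
    refine ⟨h1, ?_⟩
    have hneg : (-1 : Matrix (Fin m) (Fin m) ℝ).map (algebraMap ℝ S.FF) = -1 := by
      have h3 : (algebraMap ℝ S.FF).mapMatrix (-1 : Matrix (Fin m) (Fin m) ℝ) = -1 := by
        rw [map_neg, map_one]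
      exact h3
    rw [h2, (hconst (-1)).2, hneg, sub_eq_add_neg]
  refine ⟨?_, ?_⟩
  · exact hsum v hv (fun k => ((k.factorial : ℝ)⁻¹)) (m + 1)
  · obtain ⟨h1, h2⟩ := hsum (fun s => v s - 1) hsub.1
      (fun k => ((-1 : ℝ) ^ (k + 1) / (k : ℝ))) (m + 1)
    refine ⟨h1, ?_⟩
    rw [hsub.2] at h2
    exact h2


end Pool.Agent.QSX.H59
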